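import Pool.Agent.Helper20.MH.Defs
import Pool.Agent.Helper28.OHS.Defs

/-!
# Machines with several heads, and descriptions of their tapes: definitions
-/

namespace Pool.Agent.Helper31.MHS

open Pool.Agent.Helper65.LinSpace Pool.Agent.Helper78.Mpc Pool.Agent.Helper28.Ram
open Pool.Agent.Helper20.MH (MultiHead)
open Pool.Agent.Helper28.OHS (cellW Box)
open Pool.Agent.Helper81.Sus2 (Decomp)

variable {D K : ℕ}

/-- The name of the cell `p` of the tape number `i`: the self-delimiting code of `i` (in binary) and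
the name of `p`. -/
def nameW (i : ℕ) (p : Fin D → ℤ) : List Bool := sd i.bits ++ cellW p

/-- The tapes at the time `t` (the contents of all cells in the boxes of all `K` tapes) have a
description of at most `z` bits for the decompressor `E`, which has random access to the input word
`w`, the advice word `y` and the description `d`. -/
def Short (A : MultiHead D K) (E : Decomp) (w y : List Bool) (b a z t : ℕ) : Prop :=
  ∃ d : List Bool, d.length ≤ z ∧ ∀ (i : Fin K) (p : Fin D → ℤ), Box b p →
    E.Says w y a d (nameW i p) ((A.conf w y t).M i p)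

/-- The machine accepts at some time `t`, with the following bounds, where `n` is the length of the
input word: states, addresses and the contents of the cells have at most `s` bits, and the heads stay
in the boxes; if the tapes have no description of at most `c n` bits at the times strictly between `u`
and `v ≤ t`, then `v - u` is at most `r`. For `l = b + ⌊log₂ n⌋ + 1` and `q = D / (2 D - 1)`:
`r (s + l) ^ q l ^ 4 ≤ C (n + 1) ^ (1 + q)`, `(s + l) l ^ 2 ≤ C (n + 1)` and
`a l ^ 2 ≤ C (n + 1)`. -/
def Within (A : MultiHead D K) (E : Decomp) (c : ℕ) (C : ℝ) (w y : List Bool) : Prop :=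
  ∃ t s b a r : ℕ, A.AcceptsAt w y t ∧ A.Fits w y t s ∧
    (∀ u ≤ t, ∀ i, Box b ((A.conf w y u).h i)) ∧
    (∀ u v : ℕ, u ≤ v → v ≤ t →
      (∀ x, u < x → x < v → ¬Short A E w y b a (c * w.length) x) → v ≤ u + r) ∧
    (r : ℝ) * ((s : ℝ) + ((b : ℝ) + ((Nat.log 2 w.length : ℝ) + 1))) ^
        ((D : ℝ) / (2 * (D : ℝ) - 1)) * ((b : ℝ) + ((Nat.log 2 w.length : ℝ) + 1)) ^ 4 ≤
      C * ((w.length : ℝ) + 1) ^ (1 + (D : ℝ) / (2 * (D : ℝ) - 1)) ∧
    ((s : ℝ) + ((b : ℝ) + ((Nat.log 2 w.length : ℝ) + 1))) *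
        ((b : ℝ) + ((Nat.log 2 w.length : ℝ) + 1)) ^ 2 ≤ C * ((w.length : ℝ) + 1) ∧
    (a : ℝ) * ((b : ℝ) + ((Nat.log 2 w.length : ℝ) + 1)) ^ 2 ≤ C * ((w.length : ℝ) + 1)

end Pool.Agent.Helper31.MHS
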