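import Pool.Agent.Helper65.RT.Final
import Pool.Agent.Helper96.MH.TRU
import Pool.Agent.Helper46.MH.LSS
import Pool.Agent.Helper83.MH.STM
import Pool.Agent.Helper53.MHS.WOK
import Pool.Agent.Helper11.MHS.STP
import Pool.Agent.Helper22.MHS.RUN
import Pool.Agent.Helper49.MHS.VAL
import Pool.Agent.Helper5.MHS.CHK
import Pool.Agent.Helper86.MHS.DSC
import Pool.Agent.Helper95.MHS.COD
import Pool.Agent.Helper8.MHS.RCH
import Pool.Agent.Helper2.MHS.FOK
import Pool.Agent.Helper16.MHS.LSY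
import Pool.Agent.Helper98.MHS.LSF
import Pool.Agent.Helper79.MHS.LSR
import Pool.Agent.Helper74.MHS.EVW
import Pool.Agent.Helper32.MHS.EXG
import Pool.Agent.Helper48.MHS.GUW
import Pool.Agent.Helper31.MHS.PRWx
import Pool.Agent.Helper96.MHS.LSA
import Pool.Agent.Helper65.Gen3.Goals
import Pool.Agent.Helper28.Few.Main

/-!
# Machines with several heads and descriptions of their tapes: the theorems
-/

namespace Pool.Agent.Helper31.MHS

open Pool.Agent.Helper65.LinSpace Pool.Agent.Helper28.Ram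
open Pool.Agent.Helper20.MH (MultiHead)
open Pool.Agent.Helper81.Sus2 (Decomp)

theorem theWOK : WOK_stmt := Pool.Agent.Helper53.MHS.wok

theorem theCHK : CHK_stmt :=
  Pool.Agent.Helper5.MHS.chk
    (Pool.Agent.Helper22.MHS.run theWOK Pool.Agent.Helper11.MHS.stp Pool.Agent.Helper83.MH.stm)
    (Pool.Agent.Helper49.MHS.val theWOK)

theorem theEXG : EXG_stmt :=
  Pool.Agent.Helper32.MHS.exg Pool.Agent.Helper48.MHS.guw PRWx.prw
    Pool.Agent.Helper74.MHS.evw Pool.Agent.Helper95.MHS.cod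
    (Pool.Agent.Helper2.MHS.fok Pool.Agent.Helper96.MH.tru theWOK)
    (Pool.Agent.Helper8.MHS.rch theCHK Pool.Agent.Helper86.MHS.dsc)

theorem theLSA : LSA_stmt :=
  Pool.Agent.Helper96.MHS.lsa Pool.Agent.Helper48.MHS.guw
    (Pool.Agent.Helper98.MHS.lsf (Pool.Agent.Helper16.MHS.lsy theWOK) theWOK
      Pool.Agent.Helper46.MH.lss)
    (Pool.Agent.Helper79.MHS.lsr (Pool.Agent.Helper16.MHS.lsy theWOK))

/-- **Average-case hardness for sustained machines with several heads.** -/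
theorem mhs_main (h : Pool.Agent.Helper65.Gen3.ALT_stmt) (c : ℕ) (hc : 0 < c) :
    ∃ L : Set (List Bool), DLINSPACE L ∧
      ∀ (D K : ℕ), 0 < D → 0 < K → ∀ (A : MultiHead D K) (E : Decomp) (C : ℝ), ∃ c' : ℝ,
        ∀ (n : ℕ) (α : List Bool), ∀ M, M = L ∨ M = Lᶜ →
        ({w : List Bool | w.length = n ∧
          (Alt true (c * n) (fun v => ∃ t, A.AcceptsAt w (α ++ v) t) → w ∈ M) ∧
          (w ∈ M → Alt true (c * n) fun v => Within A E c C w (α ++ v))}.ncard : ℝ) ≤
          2 ^ n / 2 + c' * ((α.length : ℝ) + 1) * 2 ^ (((n : ℝ) + α.length / c) / 2) := by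
  obtain ⟨L, h1, h4⟩ := h (accW Pool.Agent.Helper65.RT.theSim c) NBW
    (theLSA.1 Pool.Agent.Helper65.RT.theSim c) theLSA.2 c c hc
  refine ⟨L, h1, fun D K hD hK A E C => ?_⟩
  have h := h4 (fun w y => ∃ t, A.AcceptsAt w y t) (Within A E c C)
    (theEXG Pool.Agent.Helper65.RT.theSim c hD hK A E C)
  simp only [Pool.Agent.Helper28.Few.alt_iff] at h
  exact h

/-- Languages accepted by sustained machines with several heads are in linear space. -/
theorem mhs_lin (c : ℕ) {D K : ℕ} (hD : 0 < D) (hK : 0 < K) (A : MultiHead D K) (E : Decomp)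
    (L : Set (List Bool)) (C : ℝ)
    (h1 : ∀ w, Alt true (c * w.length) (fun v => ∃ t, A.AcceptsAt w v t) → w ∈ L)
    (h2 : ∀ w ∈ L, Alt true (c * w.length) (Within A E c C w)) : DLINSPACE L :=
  Pool.Agent.Helper78.Gen2.alt_lin (accW Pool.Agent.Helper65.RT.theSim c) NBW
    (theLSA.1 Pool.Agent.Helper65.RT.theSim c) theLSA.2 c L
    (fun w y => ∃ t, A.AcceptsAt w y t) (Within A E c C)
    (theEXG Pool.Agent.Helper65.RT.theSim c hD hK A E C)
    (fun w h => h1 w ((Pool.Agent.Helper28.Few.alt_iff _ _ _).1 h))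
    (fun w hw => (Pool.Agent.Helper28.Few.alt_iff _ _ _).2 (h2 w hw))

end Pool.Agent.Helper31.MHS
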