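import Pool.Agent.Helper31.MHS.Num
import Pool.Agent.Helper20.MH.Goals
import Pool.Agent.Helper28.OHS.Goals
import Pool.Agent.Helper81.Sus2.Goals2

/-!
# Machines with several heads and descriptions of their tapes: the statements of the parts

Every statement comes with its proof in words. A packet may assume the statements which are named in
its text as hypotheses.
-/

namespace Pool.Agent.Helper31.MHS

open Pool.Agent.Helper65.LinSpace Pool.Agent.Helper78.Mpc Pool.Agent.Helper28.Ram Finset Filter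
open Pool.Agent.Helper65.OH (kap)
open Pool.Agent.Helper28.Long (ZL)
open Pool.Agent.Helper65.RT (qT CT LSM Sim)
open Pool.Agent.Helper20.MH (MultiHead Prm Sys Conf ParM FnsM GoodM InBox cz PFM SLS STM_stmt
  TRU_stmt LSS_stmt MLM_stmt)
open Pool.Agent.Helper28.OHS (Box cellW cellN CEL_stmt)
open Pool.Agent.Helper81.Sus2 (Decomp CodE LSP)

/-! ### The system for a part of a computation -/

/-- WOK. The bounds of the system, and the heads do not leave the neighbourhood in `c` steps. As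
`Pool/Agent/Helper56/MH/OKM.lean` (`mk_lt`, `fN_lt`, `fW_lt`, `fB_lt`, `cq_lt`, `step_le` can be used as
they are; `m.sys.sg = P.sg` by definition). Bounds: `wN … % 2 ^ (sg + cb)`, `fW + 1 < 2 ^ (S + 2)`,
`dig (2 ^ (S + 2)) … < 2 ^ (S + 2)`, `cs c < 2 ^ sg`, `a + 2 ^ sg * b < 2 ^ (sg + cb)` for `a < 2 ^ sg`,
`b < 2 ^ cb`. For the states `u`, `u'` of two consecutive steps: `u' % 2 ^ sg` is `fN (u % 2 ^ sg) v'` for
some `v'` (since `fN < 2 ^ sg`), or `u % 2 ^ sg`; so the coordinates `cq (u % 2 ^ sg) k`, `k < K D`, change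
by at most `1` in a step, and by at most `r` in `r` steps. The rest is the proof of `okm`. -/
def WOK_stmt : Prop := ∀ (P : WP) (c τ : ℕ), 0 < P.m.κ → 0 < P.m.c → (P.sys c τ).Ok ∧
    ∀ t r i, r < (P.sys c τ).c → i < (P.sys c τ).K → ∃ j < (P.sys c τ).J,
      (P.sys c τ).nb ((P.sys c τ).B ((P.sys c τ).conf t).1) j =
        (P.sys c τ).cell ((P.sys c τ).conf (t + r)).1 i

/-- STP. One step of the system and one step of `m.sys` for the contents `ef c z (M z)`. `rd` and `fl`: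
`dig_tab` (`M z < 2 ^ (S + 2)`), `tab_congr`. `wr`: induction on the number of the heads (`nrec`); in every
step either both contents are replaced, `ef c z (fW … + 1) = fW …`, or both are kept. If no step is made
then `wW` writes the content which was read, `dig (2 ^ (S + 2)) (rd M u) i = M (cell u i)`. -/
structure STP_stmt : Prop where
  rd : ∀ (P : WP) (c τ u : ℕ) (M : ℕ → ℕ), (∀ z, M z < 2 ^ (P.m.S + 2)) →
    P.fl c (u % 2 ^ P.sg) ((P.sys c τ).rd M u) =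
      P.m.sys.rd (fun z => P.ef c z (M z)) (u % 2 ^ P.sg)
  wr : ∀ (P : WP) (c τ u : ℕ) (M : ℕ → ℕ), (∀ z, M z < 2 ^ (P.m.S + 2)) → P.stp u = 0 → ∀ z,
    P.ef c z ((P.sys c τ).wr u ((P.sys c τ).rd M u) z (M z)) =
      P.m.sys.wr (u % 2 ^ P.sg) (P.m.sys.rd (fun z => P.ef c z (M z)) (u % 2 ^ P.sg)) z
        (P.ef c z (M z))
  idle : ∀ (P : WP) (c τ u : ℕ) (M : ℕ → ℕ), (∀ z, M z < 2 ^ (P.m.S + 2)) → P.stp u ≠ 0 → ∀ z,
    (P.sys c τ).wr u ((P.sys c τ).rd M u) z (M z) = M z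

/-- The configuration with the number `c` describes `C`. -/
structure RepW {D K : ℕ} (P : WP) (c : ℕ) (C : Conf D K) : Prop where
  ne : c ≠ 0
  good : GoodM P.m C (P.cs c) (P.ini c)

/-- The state `u` and the contents `M` of the system describe `C`, and `j` steps are left. -/
structure GW {D K : ℕ} (P : WP) (c j : ℕ) (C : Conf D K) (u : ℕ) (M : ℕ → ℕ) : Prop where
  cnt : u / 2 ^ P.sg = j
  good : GoodM P.m C (u % 2 ^ P.sg) fun z => P.ef c z (M z)

/-- RUN (may assume WOK, STP, STM). The part of the computation. Compare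
`Pool/Agent/Helper11/MH/MCM.lean` (`fail_step`, `accN_zero_of`, `conf_succ`, `wq_lt`). All contents of the
system are smaller than `2 ^ (S + 2)` (`Ok`: `hM0`, `hW`). Start: `(cs c + 2 ^ sg * τ) % 2 ^ sg = cs c`
(`cs c < 2 ^ sg`), `ef c z 0 = ini c z`; the number of steps left is `τ % 2 ^ cb = τ`. If `wq u = 0`
(`wq u = wq (u % 2 ^ sg)` as `S + 1 ≤ sg`) this remains true: `fail_step`, or the state is kept. Step from
`GW … (τ - j) (conf (t₀ + j))`: if `j = τ` or the state is accepting then `stp u ≠ 0`, and nothing is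
changed (`u < 2 ^ (sg + cb)`). Otherwise `stp u = 0`, the new state is
`(fN q v' + 2 ^ sg * (τ - j - 1)) % 2 ^ (sg + cb)` with `fN q v' < 2 ^ sg` (`fN_lt`) and
`τ - j - 1 < 2 ^ cb`, and STM with STP gives `wq = 0` or `GW` for `j + 1`. For the second claim the
hypotheses of the second part of STM hold (`Fits` at the times `t₀ + j` and `t₀ + j + 1`; in
`GoodM` the contents of the cells of the box are `capN S (num …)`). -/
structure RUN_stmt : Prop where
  snd : ∀ {D K : ℕ} (A : MultiHead D K) (eA eN eW c0 : ℕ) (w y : List Bool) (P : WP),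
    ParM A eA eN eW c0 w y P.m → FnsM A P.m → 0 < P.m.c →
    ∀ c τ t₀, RepW P c (A.conf w y t₀) → τ < 2 ^ P.cb → ∀ t,
      P.m.wq ((P.sys c τ).conf t).1 = 0 ∨
      ∃ j ≤ τ, j ≤ t ∧ GW P c (τ - j) (A.conf w y (t₀ + j)) ((P.sys c τ).conf t).1
        ((P.sys c τ).conf t).2 ∧ (j = t ∨ j = τ ∨ A.AcceptsAt w y (t₀ + j))
  cmp : ∀ {D K : ℕ} (A : MultiHead D K) (eA eN eW c0 : ℕ) (w y : List Bool) (P : WP),
    ParM A eA eN eW c0 w y P.m → FnsM A P.m → 0 < P.m.c →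
    ∀ c τ t₀, RepW P c (A.conf w y t₀) → τ < 2 ^ P.cb →
    A.Fits w y (t₀ + τ) P.m.S → (∀ u ≤ t₀ + τ, ∀ i, InBox P.m.κ ((A.conf w y u).h i)) →
    (∀ u, t₀ ≤ u → u < t₀ + τ → ¬A.AcceptsAt w y u) → ∀ t,
      GW P c (τ - min t τ) (A.conf w y (t₀ + min t τ)) ((P.sys c τ).conf t).1
        ((P.sys c τ).conf t).2

/-! ### The check -/

/-- `F` contains the values of the registers of the parallel machines. -/
def FOk (P : WP) (F : ℕ → ℕ → ℕ → ℕ) : Prop :=
  ∀ c τ x, F c τ x = ((P.sys c τ).conf P.N).1 + 2 ^ (P.sg + P.cb) *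
    tab (2 ^ (P.m.S + 2)) (P.sys c τ).J fun j =>
      ((P.sys c τ).conf P.N).2 (P.m.nb (x % 2 ^ (P.sys c τ).σ) j)

/-- VAL (may assume WOK). The values. (`st`): the state is smaller than `2 ^ (sg + cb)` (`Ok`: `hu0`,
`hN`). (`wq`): `wq q = q % 2 ^ (S + 1)` and `S + 1 ≤ sg`. (`oz`): let `Z = i + (K + 1) p` and `x = rt p`; then
`x < (2 ^ κ) ^ (K D)`, so `x % 2 ^ σ = x`, and `dig (2 ^ κ) x (i' D + k) = dig (2 ^ κ) p k / c` for `i' < K`,
`k < D` (`dig_tab`, `Nat.mul_add_mod`). First case: `tpN i' = i` for some `i' < K`. Let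
`δ k = dig (2 ^ κ) p k + c - dig (2 ^ κ) p k / c * c < 3 c` and `j = i' + K * tab (3 c) D δ < J`; then
`nb x j = Z` (as at the end of `okm` in `Pool/Agent/Helper56/MH/OKM.lean`; `tab (2 ^ κ) D (dig (2 ^ κ) p) = p`
by `tab_dig`), and `old x (F c τ x) Z = (conf N).2 Z`: by induction, after `n` steps of the `nrec` the
number is `(conf N).2 Z` if `nb x j' = Z` for some `j' < n`, because the digit `j'` of the value is
`(conf N).2 (nb x j')` (compare `Pool/Agent/Helper96/MH/TRU.lean`). Second case: `tpN i' ≠ i` for all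
`i' < K`. Then `nb x j ≠ Z` for all `j < J` (`tpN < K + 1`, `i < K + 1`, remainders modulo `K + 1`; `J = 0` if
`K = 0`), so `old = 0`; and `cell u i' ≠ Z` for all `u` and `i' < K`, so the content of `Z` is never
changed and is `M0 = 0`. -/
structure VAL_stmt : Prop where
  st : ∀ (P : WP) (F : ℕ → ℕ → ℕ → ℕ), 0 < P.m.κ → 0 < P.m.c → FOk P F → ∀ c τ x,
    F c τ x % 2 ^ (P.sg + P.cb) = ((P.sys c τ).conf P.N).1
  wq : ∀ (P : WP) (F : ℕ → ℕ → ℕ → ℕ), 0 < P.m.κ → 0 < P.m.c → FOk P F → ∀ c τ x,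
    P.m.wq (F c τ x) = P.m.wq ((P.sys c τ).conf P.N).1
  oz : ∀ (P : WP) (F : ℕ → ℕ → ℕ → ℕ), 0 < P.m.κ → 0 < P.m.c → FOk P F → ∀ c τ,
    ∀ i < P.m.K, ∀ p < (2 ^ P.m.κ) ^ P.m.D,
      P.oz c τ (P.rt p) (F c τ (P.rt p)) (i + (P.m.K + 1) * p) =
        P.ef c (i + (P.m.K + 1) * p) (((P.sys c τ).conf P.N).2 (i + (P.m.K + 1) * p))

/-- CHK (may assume RUN, VAL). Write `u`, `M` for `(sys c τ).conf N`. (`snd`): `chk ≠ 0` means: `0 < τ`,
`1 < d`, `wq (cs d) ≠ 0` and `okz c τ d i p = 1` for all `i < K`, `p < (2 ^ κ) ^ D`. As `0 < K` there is such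
a pair (`i = p = 0`), so `u = cs d` (VAL), and `RUN.snd` for `t = N` gives `j ≤ τ` with
`u / 2 ^ sg = τ - j`; `cs d < 2 ^ sg`, so `j = τ`. Then `GoodM` for `cs d` and `ef c z (M z)`; for a cell `z` of
the box of the tape `i : Fin K` the number `cz m i z` is `i + (K + 1) p` with `p = tab … < (2 ^ κ) ^ D`, and
`ef c (cz m i z) (M (cz m i z)) = ini d (cz m i z)` by VAL and `okz = 1`. (`acs`): `wq u ≠ 0` since
`accN 0 = 0`; by `RUN.snd` there is a `j` with `wq (u % 2 ^ sg) = num (conf (t + j)).q`, and `accN_num`.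
(`cmp`): `RUN.cmp` for `N ≥ τ`: `GW P c 0 (conf (t + τ)) u M`, so `u = u % 2 ^ sg`, and `u = cs d` since
`GoodM` determines the code: for `q < 2 ^ sg`, `q = wq q + 2 ^ (S + 1) * tab (2 ^ κ) (K D) (cq q)`
(`tab_dig`), `cq q (i D + k)` is determined by `C.h i k`, and every number smaller than `K D` is of the
form `i D + k`. `okz = 1`: for `i < K` and `p < (2 ^ κ) ^ D` the cell `z k = dig (2 ^ κ) p k - 2 ^ (κ - 1)` is in
the box and `cz m i z = i + (K + 1) p`, so both contents are `capN S (num …)`. (`acc`): the state is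
`u % 2 ^ sg` with `wq = num q`, `accN_num`. -/
structure CHK_stmt : Prop where
  snd : ∀ {D K : ℕ} (A : MultiHead D K) (eA eN eW c0 : ℕ) (w y : List Bool) (P : WP)
    (F : ℕ → ℕ → ℕ → ℕ), 0 < K → ParM A eA eN eW c0 w y P.m → FnsM A P.m → 0 < P.m.c → FOk P F →
    ∀ c τ d t, τ < 2 ^ P.cb → RepW P c (A.conf w y t) → P.chk F c τ d ≠ 0 →
      RepW P d (A.conf w y (t + τ)) ∧ 0 < τ
  acs : ∀ {D K : ℕ} (A : MultiHead D K) (eA eN eW c0 : ℕ) (w y : List Bool) (P : WP)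
    (F : ℕ → ℕ → ℕ → ℕ), 0 < K → ParM A eA eN eW c0 w y P.m → FnsM A P.m → 0 < P.m.c → FOk P F →
    ∀ c τ t, τ < 2 ^ P.cb → RepW P c (A.conf w y t) → P.ac F c τ ≠ 0 → ∃ r, A.AcceptsAt w y r
  cmp : ∀ {D K : ℕ} (A : MultiHead D K) (eA eN eW c0 : ℕ) (w y : List Bool) (P : WP)
    (F : ℕ → ℕ → ℕ → ℕ), 0 < K → ParM A eA eN eW c0 w y P.m → FnsM A P.m → 0 < P.m.c → FOk P F →
    ∀ c τ d t, τ ≤ P.N → τ < 2 ^ P.cb → RepW P c (A.conf w y t) → 0 < τ → 2 ≤ d →
      RepW P d (A.conf w y (t + τ)) → A.Fits w y (t + τ) P.m.S →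
      (∀ u ≤ t + τ, ∀ i, InBox P.m.κ ((A.conf w y u).h i)) →
      (∀ u, t ≤ u → u < t + τ → ¬A.AcceptsAt w y u) → P.chk F c τ d ≠ 0
  acc : ∀ {D K : ℕ} (A : MultiHead D K) (eA eN eW c0 : ℕ) (w y : List Bool) (P : WP)
    (F : ℕ → ℕ → ℕ → ℕ), 0 < K → ParM A eA eN eW c0 w y P.m → FnsM A P.m → 0 < P.m.c → FOk P F →
    ∀ c τ t, τ ≤ P.N → τ < 2 ^ P.cb → RepW P c (A.conf w y t) → A.Fits w y (t + τ) P.m.S →
      (∀ u ≤ t + τ, ∀ i, InBox P.m.κ ((A.conf w y u).h i)) →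
      (∀ u, t ≤ u → u < t + τ → ¬A.AcceptsAt w y u) → A.AcceptsAt w y (t + τ) →
      P.ac F c τ ≠ 0

/-- DSC (may assume `CEL_stmt` of `Helper28/OHS/Goals.lean`; `DEC_stmt` of `Helper81/Sus2/Goals.lean` is
proved: `Pool.Agent.Helper81.Sus2.dec`). Descriptions give configurations; compare
`Pool/Agent/Helper55/OHS/DSC.lean`. (`start`): `cs 1 = mk' (capN S (num start)) …`, `ini 1 z = capN S 1 = 1 =
num []`; `wq_mk`, `cq_mk` (`Helper11/MH/MCM.lean`, `Helper56/MH/OKM.lean`). (`short`): let `D₀` be the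
description, `q = mk' (num C.q) f` with `f (i D + k) = (C.h i k + 2 ^ (κ - 1)).toNat < 2 ^ κ` for `i < K`,
`k < D`, and `d = 2 + (q + 2 ^ sg * num D₀)`; `d ≠ 1`, `(d - 2) % 2 ^ sg = q`, `(d - 2) / 2 ^ sg = num D₀ <
2 ^ (z + 1)`. For a tape `i < K` and a cell `p` of the box (`Box b p` is `InBox (b + 1) p`),
`Z = cz m i p`: `Z % (K + 1) = i`, `Z / (K + 1) = tab (2 ^ κ) D …`, so `nm Z = num (nameW i p)` (`bitsN_eq`,
`sdN_num`, `catN_num`, `CEL.name`, `CEL.congr` with `dig_tab`), and `lk (num D₀) (nm Z) = num (C.M i p)` by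
DEC. -/
structure DSC_stmt : Prop where
  start : ∀ {D K : ℕ} (A : MultiHead D K) (eA eN eW c0 : ℕ) (w y : List Bool) (P : WP),
    ParM A eA eN eW c0 w y P.m → A.start.length ≤ P.m.S → RepW P 1 (A.conf w y 0)
  short : ∀ {D K : ℕ} (A : MultiHead D K) (E : Decomp) (eA eN eW c0 : ℕ) (w y : List Bool)
    (P : WP), ParM A eA eN eW c0 w y P.m → CodE E P.e → ∀ b t z : ℕ, P.m.κ = b + 1 →
    (A.conf w y t).q.length ≤ P.m.S → (∀ i, Box b ((A.conf w y t).h i)) →
    Short A E w y b P.Z z t → ∃ d, 2 ≤ d ∧ d < P.nz z ∧ RepW P d (A.conf w y t)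

/-- COD. The codes of the functions. As `Pool/Agent/Helper19/OHS/COD.lean` and `fns` in
`Pool/Agent/Helper11/MH/MCM.lean`. -/
def COD_stmt : Prop := ∀ {D K : ℕ} (A : MultiHead D K) (E : Decomp), ∃ eA eN eW eD eX c0 : ℕ,
    ∀ (w y : List Bool) (P : WP), ParM A eA eN eW c0 w y P.m → P.eD = eD → P.eX = eX →
    c0 * (8 * P.Z + 8) ≤ P.m.Λ → c0 + P.m.Λ + 8 * P.Z + 8 ≤ P.m.β → 2 ^ (P.Z + 2) ≤ P.m.B →
    FnsM A P.m ∧ CodE E P.e

/-- RCH (may assume CHK, DSC). The whole computation; compare `rch_sound`, `rch_complete` in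
`Pool/Agent/Helper92/RTS/Main.lean` (`itr_sound`, `itr_complete` of `Helper31/SusD/Grd.lean`). For the
greedy sequence use the relation `R c t = RepW P c (conf t)`. `R 1 0` is `DSC.start`: the first factor
of `rch` is not `0`, so `wq (cs 1) = capN S (num start) ≠ 0` and `start` has length at most `S`
(`Helper11.Ram.capN_num_le`). Completeness: let `r` be the least accepting time, and use the relation
`R c t' = (c ≠ 0 ∧ (t' ≤ r → RepW P c (conf t')))`. If `r ≤ t' + N` then `ac c (r - t') ≠ 0`. Otherwise the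
times `t'` and `v = t' + N + 1 ≤ r` violate `v ≤ t' + r₀`, so there is a time `x` with `t' < x < v` and a
description, hence by `DSC.short` a configuration `d`, and `chk c (x - t') d ≠ 0`. `Box b p` is
`InBox (b + 1) p`. -/
structure RCH_stmt : Prop where
  snd : ∀ {D K : ℕ} (A : MultiHead D K) (eA eN eW c0 : ℕ) (w y : List Bool) (P : WP)
    (F : ℕ → ℕ → ℕ → ℕ) (z : ℕ), 0 < K → ParM A eA eN eW c0 w y P.m → FnsM A P.m → 0 < P.m.c →
    FOk P F → P.N < 2 ^ P.cb → P.rch F z ≠ 0 → ∃ t, A.AcceptsAt w y t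
  cmp : ∀ {D K : ℕ} (A : MultiHead D K) (E : Decomp) (eA eN eW c0 : ℕ) (w y : List Bool) (P : WP)
    (F : ℕ → ℕ → ℕ → ℕ) (z : ℕ), 0 < K → ParM A eA eN eW c0 w y P.m → FnsM A P.m →
    CodE E P.e → 0 < P.m.c → FOk P F → P.N < 2 ^ P.cb → ∀ t b r₀ : ℕ, P.m.κ = b + 1 →
    A.AcceptsAt w y t → A.Fits w y t P.m.S → (∀ u ≤ t, ∀ i, Box b ((A.conf w y u).h i)) →
    (∀ u v : ℕ, u ≤ v → v ≤ t →
      (∀ x, u < x → x < v → ¬Short A E w y b P.Z z x) → v ≤ u + r₀) → r₀ ≤ P.N →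
    P.rch F z ≠ 0

end Pool.Agent.Helper31.MHS
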