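import Pool.Agent.Helper31.MHS.Goals
import Pool.Agent.Helper65.RT.Goals

/-!
# Machines with several heads and descriptions of their tapes: linear space and parameters

Every statement comes with its proof in words.
-/

namespace Pool.Agent.Helper31.MHS

open Pool.Agent.Helper65.LinSpace Pool.Agent.Helper78.Mpc Pool.Agent.Helper28.Ram Finset Filter
open Pool.Agent.Helper65.OH (kap)
open Pool.Agent.Helper28.Long (ZL)
open Pool.Agent.Helper65.RT (qT CT LSM Sim Par)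
open Pool.Agent.Helper20.MH (MultiHead Prm Sys Conf ParM FnsM GoodM InBox cz PFM SLS STM_stmt
  TRU_stmt LSS_stmt MLM_stmt)
open Pool.Agent.Helper81.Sus2 (Decomp CodE LSP)

/-- The simulation of the parallel machine. -/
def FF (Q : Sim) (n : ℕ) (P : WP) (c τ x : ℕ) : ℕ := Q.sim n (P.mach c τ x)

/-- FOK (may assume `TRU_stmt` of `Helper20/MH/Goals.lean`, WOK; proved: `Helper96/MH/TRU.lean`). The
values are right: `Q.eq` (`Mach.Ok` of `mach`: see `Helper46/MH/LSS.lean`), and TRU with `k = d`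
(`T` does not depend on the root). -/
def FOK_stmt : Prop := ∀ (Q : Sim) (n : ℕ) (P : WP), 0 < P.m.κ → 0 < P.m.c → 0 < P.E → 0 < P.G →
    1 + P.m.R ≤ P.G * P.E →
    P.m.K * (3 * P.m.c) ^ P.m.D ≤ (P.G * P.E - (1 + P.m.R)) * (P.m.c * P.m.K) →
    (∀ c τ X, Par n (P.mach c τ X)) → FOk P (FF Q n P)

/-! ### Linear space -/

/-- A family of parameters which are computed in linear space. -/
structure PFW {α : Type} [Ctx α] (P : α → WP) (C : α → ℕ) : Prop where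
  pm : PFM (fun z => (P z).m) C
  Z : LS (fun z => (P z).Z)
  eD : LS (fun z => (P z).eD)
  eX : LS (fun z => (P z).eX)
  cb : LS (fun z => (P z).cb)
  E : LS (fun z => (P z).E)
  G : LS (fun z => (P z).G)
  d : LS (fun z => (P z).d)
  E0 : ∀ z, 0 < (P z).E
  G0 : ∀ z, 0 < (P z).G
  bZ : ∀ z, 2 ^ ((P z).Z + 2) ≤ C z
  bN : ∀ z, 2 ^ ((2 * (P z).m.κ + 3) * (P z).m.D + 1) ≤ C z
  hC1 : ∀ z, 2 ^ (((P z).sys 0 0).a * (((P z).sys 0 0).R + 2)) ≤ C z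
  hC2 : ∀ z, 2 ^ ((P z).sys 0 0).b ≤ C z
  hC3 : ∀ z, 2 ^ ((P z).sys 0 0).σ ≤ C z

/-- LSY (may assume WOK, `MLM_stmt` of `Helper20/MH/Goals.lean`). The systems are computed in linear
space. The functions of `m` (`fN`, `fW`, `cell`, `fB`, `nb`, `mk'`, `wq`) are in the proof of MLM (packet of
helper96; compare `Pool/Agent/Helper54/OH/MLS.lean`), those of the decompressor in
`Helper81/Sus2/LSW.lean` (`ls_lk`; the family `(P z).e` is as in `ls_dm` of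
`Pool/Agent/Helper92/RTS/Lin.lean`). `cellN` as in `Pool/Agent/Helper15/OHS/LSW.lean` (bound `bN`). Powers:
`sg, sg + cb, S + 2, K (S + 2) ≤ sys.a` (for `K > 0`; `tab` with `K = 0` is `0`), so `2 ^ … ≤ C`, `LS.pow_of_le`;
`2 ^ cb ≤ 2 ^ (sg + cb)`. `fl` is a `tab` with `K` digits smaller than `2 ^ (S + 1)` (`ef < 2 ^ (S + 1)` in
the class: replace `r - 1` by `(r - 1) % 2 ^ (S + 1)`, or use `dig … < 2 ^ (S + 2)`). -/
def LSY_stmt : Prop := ∀ {α : Type} [Ctx α] {P : α → WP} {C c τ : α → ℕ}, PFW P C → LS c → LS τ →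
    SLS (fun z => (P z).sys (c z) (τ z)) C

/-- LSF (may assume LSY, WOK, `LSS_stmt` of `Helper20/MH/Goals.lean`). The simulation is computed in
linear space: `Q.ls`, LSS, and `Q.nv` for the two bounds; the root is replaced. Compare `ls_FD` in
`Pool/Agent/Helper92/RTS/Lin.lean`. -/
def LSF_stmt : Prop := ∀ (Q : Sim) {α : Type} [Ctx α] {P : α → WP} {x c τ X : α → ℕ}, LS x →
    PFW P (fun z => CT (x z)) → (∀ z c τ X, Par (Nat.log 2 (x z)) ((P z).mach c τ X)) →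
    LS c → LS τ → LS X → LS (fun z => FF Q (Nat.log 2 (x z)) (P z) (c z) (τ z) (X z))

/-- LSR (may assume LSY). The decision is computed in linear space. Compare `ls_chk`, `ls_rch` in
`Pool/Agent/Helper92/RTS/Lin.lean` and `LS.itr` in `Helper31/SusD/Grd.lean`; `(2 ^ κ) ^ D ≤ C`
(`PFM.b7`), `old` by `LS.nrec` (see `Helper46/MH/LSS.lean`), `rt` by `LS.tab`
(`(2 ^ κ) ^ (K D) ≤ 2 ^ σ ≤ C`); `chk ≤ 1`, `ac ≤ 1`; `nz z ≤ 2 + C * C'`. -/
def LSR_stmt : Prop := ∀ {α : Type} [Ctx α] {P : α → WP} {C C' v : α → ℕ}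
    {F : α → ℕ → ℕ → ℕ → ℕ}, PFW P C →
    LS (fun z : α × ℕ × ℕ × ℕ => F z.1 z.2.1 z.2.2.1 z.2.2.2) → LS v → LS C' →
    (∀ z, 2 ^ (v z + 1) ≤ C' z) → LS (fun z => (P z).rch (F z) (v z))

/-! ### The parameters -/

/-- `1` if the parameters are admissible for a machine with `K` heads in dimension `D`, for inputs of
length `n`. -/
def gw (n D K S b c R E G d Z : ℕ) : ℕ :=
  lt01 0 c * (lt01 0 E * (lt01 0 G * (lt01 0 K * (lt01 0 D * (le01 (S + Z) (ZL n) *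
    (le01 (1 + R) (G * E) * (le01 (capPow (3 * c) D (4 * (n + 1))) (4 * (n + 1)) *
    (le01 (K * capPow (3 * c) D (4 * (n + 1))) ((G * E - (1 + R)) * (c * K)) *
    (le01 (G * ((S + 1 + (b + 1) * (K * D) + kap n + c * (K * (S + 2))) * E) +
      E * (S + 1 + (b + 1) * (K * D) + kap n +
        K * capPow (3 * c) D (4 * (n + 1)) * (S + 2))) (4 * qT n) *
    (le01 (d * (G + 2)) (4 * qT n) *
    (le01 ((d + 1) * ((b + 1) * (K * D) + 1)) (4 * qT n) *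
      le01 ((d + 1) * (((b + 1) * (K * D) + 1) * E)) (4 * (n + 1)))))))))))))

/-- The parameters, where those which are not admissible are replaced by trivial ones; `g` is the
value of `gw`. -/
def pw (g eA eN eW st x y D K tp S b c R E G d Z eD eX : ℕ) : WP where
  m :=
    { eA := eA
      eN := eN
      eW := eW
      st := st
      x := x
      y := y
      Λ := LW (Nat.log 2 x)
      β := 2 ^ (2 * ll (Nat.log 2 x))
      B := CR x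
      D := ifz g 0 D
      K := ifz g 0 K
      tp := tp
      S := ifz g 0 S
      κ := ifz g 0 b + 1
      c := ifz g 1 c
      R := ifz g 0 R }
  Z := ifz g 0 Z
  eD := eD
  eX := eX
  cb := ifz g 0 (kap (Nat.log 2 x))
  E := ifz g 1 E
  G := ifz g 1 G
  d := ifz g 0 d

/-- What is needed about the parameters. -/
structure GUW (x D K S b c R E G d Z g : ℕ) (P : WP) : Prop where
  par : ∀ c' τ X, Par (Nat.log 2 x) (P.mach c' τ X)
  pos : 0 < P.m.κ ∧ 0 < P.m.c ∧ 0 < P.E ∧ 0 < P.G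
  hR : 1 + P.m.R ≤ P.G * P.E
  hJ : P.m.K * (3 * P.m.c) ^ P.m.D ≤ (P.G * P.E - (1 + P.m.R)) * (P.m.c * P.m.K)
  bβ : 0 < P.m.β ∧ P.m.β ^ P.m.Λ ≤ CT x
  bD : (3 * P.m.c) ^ P.m.D ≤ CT x ∧ 2 ^ P.m.κ ≤ CT x ∧ (2 ^ P.m.κ) ^ P.m.D ≤ CT x
  bZ : 2 ^ (P.Z + 2) ≤ CT x
  bN : 2 ^ ((2 * P.m.κ + 3) * P.m.D + 1) ≤ CT x
  hC0 : 2 ^ (P.m.sys.a * (P.m.sys.R + 2)) ≤ CT x ∧ 2 ^ P.m.sys.b ≤ CT x ∧ 2 ^ P.m.sys.σ ≤ CT x
  hC1 : 2 ^ ((P.sys 0 0).a * ((P.sys 0 0).R + 2)) ≤ CT x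
  hC2 : 2 ^ (P.sys 0 0).b ≤ CT x
  hC3 : 2 ^ (P.sys 0 0).σ ≤ CT x
  hSZ : P.m.S + P.Z ≤ ZL (Nat.log 2 x)
  hN : P.N < 2 ^ P.cb
  eq : g ≠ 0 → P.m.D = D ∧ P.m.K = K ∧ P.m.S = S ∧ P.m.κ = b + 1 ∧ P.m.c = c ∧ P.m.R = R ∧
    P.E = E ∧ P.G = G ∧ P.d = d ∧ P.Z = Z

/-- GUW. The parameters. As `Pool/Agent/Helper60/MH/GUA.lean` (copy it). Let `n = log x`. If `g = 0` then
`D = K = S = R = Z = d = cb = 0`, `κ = c = E = G = 1`. If `g ≠ 0` then all factors of `gw` are `1`, and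
`Par` is literally what `gw` says. Powers: `κ ≤ κ D ≤ κ (K D) ≤ (d + 1) σ ≤ 4 qT n ≤ 4 (n + 1)` since `0 < K` and
`0 < D`, so `(2 κ + 3) D + 1 ≤ 5 κ D + 1 ≤ 21 (n + 1)`. `m.sys.a ≤ (sys 0 0).a`, `m.sys.b ≤ (sys 0 0).b`.
`Z ≤ ZL n ≤ n` (`Helper28.Long.ZL_le`). `N = d (R c)`: `d ≤ 4 qT n`, `R ≤ G E ≤ 4 qT n`,
`c ≤ c (K (S + 2)) ≤ 4 qT n`, and `4 qT n ≤ 4 (n + 1)`, so `N ≤ 64 (n + 1) ^ 3 < 2 ^ (4 * ll n + 6) = 2 ^ cb`
(`n + 1 ≤ 2 ^ ll n`, `1 ≤ ll n`). -/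
def GUW_stmt : Prop := ∀ (eA eN eW st x y D K tp S b c R E G d Z eD eX : ℕ),
    GUW x D K S b c R E G d Z (gw (Nat.log 2 x) D K S b c R E G d Z)
      (pw (gw (Nat.log 2 x) D K S b c R E G d Z) eA eN eW st x y D K tp S b c R E G d Z eD eX)

/-- PRW. The parameters for large `n`. The proof of PRM (`Pool/Agent/Helper64/MH/PRM.lean`, copy it) with
`L` replaced by the real number `b + log₂ n + 1 ≥ ll n` (`le_qT` gets `X * ll n ≤ X * L ≤ 4 (n + 1)`,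
`kap n = 4 * ll n + 6 ≤ 10 L`, `b + 1 ≤ L`; `√L ≥ √(ll n)` is as large as we like), with the sum
`(b + 1) (K D) + kap n` in place of `kap n (K D)` in the first inequality, `S + 2` in place of `S + 1`, and
`(b + 1) (K D)` in the last two inequalities. `s ≤ C N / L ^ 2` and `a ≤ C N / L ^ 2`, so
`s + a ≤ ZL n` for large `n` (`Helper28.Long.le_ZL` for `2 C`). `b + 1 ≤ (b + 1) (K D) ≤ 4 qT n ≤ 4 (n + 1)`. -/
def PRW_stmt : Prop := ∀ (D K : ℕ) (C : ℝ), 0 < D → 0 < K → ∀ᶠ n : ℕ in atTop, ∀ r s b a : ℕ,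
    (r : ℝ) * ((s : ℝ) + ((b : ℝ) + ((Nat.log 2 n : ℝ) + 1))) ^ ((D : ℝ) / (2 * (D : ℝ) - 1)) *
        ((b : ℝ) + ((Nat.log 2 n : ℝ) + 1)) ^ 4 ≤
      C * ((n : ℝ) + 1) ^ (1 + (D : ℝ) / (2 * (D : ℝ) - 1)) →
    ((s : ℝ) + ((b : ℝ) + ((Nat.log 2 n : ℝ) + 1))) *
      ((b : ℝ) + ((Nat.log 2 n : ℝ) + 1)) ^ 2 ≤ C * ((n : ℝ) + 1) →
    (a : ℝ) * ((b : ℝ) + ((Nat.log 2 n : ℝ) + 1)) ^ 2 ≤ C * ((n : ℝ) + 1) →
    ∃ c R E G d : ℕ, gw n D K s b c R E G d a ≠ 0 ∧ r ≤ d * (R * c) ∧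
      s < 4 * n + 8 ∧ b < 4 * n + 8 ∧ c < 4 * n + 8 ∧ R < 4 * n + 8 ∧ E < 4 * n + 8 ∧
      G < 4 * n + 8 ∧ d < 4 * n + 8 ∧ a < 4 * n + 8

/-- EVW. For large `n` the codes work. (`Helper28.Long.ev_par`, see `evm` in
`Pool/Agent/Helper48/MH/LSG.lean` and `ev_cod` in `Pool/Agent/Helper92/RT/Par.lean`; `8 Z + 8 ≤ 8 (Z + 1)`;
`LW n ≤ n`, `(n + 1) ^ 2 ≤ 2 ^ (2 * ll n)`.) -/
def EVW_stmt : Prop := ∀ c0 : ℕ, ∀ᶠ n : ℕ in atTop, ∀ S ≤ ZL n,
    c0 * (S + 1) ≤ LW n ∧ c0 * (S + 1) + LW n ≤ 2 ^ (2 * ll n) ∧ c0 * (8 * S + 8) ≤ LW n ∧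
      c0 + LW n + 8 * S + 8 ≤ 2 ^ (2 * ll n) ∧ ∀ x, Nat.log 2 x = n → 2 ^ (S + 2) ≤ CR x

/-! ### The decision

The code `u` of a machine has the numbers `D, K, tp, eA, eN, eW, st, eD, eX`. The bounds `S, b, c, R,
E, G, d, Z` are the digits of `T` in base `4 n + 8`. -/

/-- The number `i` of the code `u`. -/
def cfi (u i : ℕ) : ℕ := dig (Nat.unpair u).1 (Nat.unpair u).2 i

/-- The base. -/
def bsW (x : ℕ) : ℕ := 4 * Nat.log 2 x + 8

/-- `1` if the parameters are admissible. -/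
def gT (u x T : ℕ) : ℕ :=
  gw (Nat.log 2 x) (cfi u 0) (cfi u 1) (dig (bsW x) T 0) (dig (bsW x) T 1) (dig (bsW x) T 2)
    (dig (bsW x) T 3) (dig (bsW x) T 4) (dig (bsW x) T 5) (dig (bsW x) T 6) (dig (bsW x) T 7)

/-- The parameters. -/
def PT (u x y T : ℕ) : WP :=
  pw (gT u x T) (cfi u 3) (cfi u 4) (cfi u 5) (cfi u 6) x y (cfi u 0) (cfi u 1) (cfi u 2)
    (dig (bsW x) T 0) (dig (bsW x) T 1) (dig (bsW x) T 2) (dig (bsW x) T 3) (dig (bsW x) T 4)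
    (dig (bsW x) T 5) (dig (bsW x) T 6) (dig (bsW x) T 7) (cfi u 7) (cfi u 8)

/-- Not `0` if the machine with the code `u` accepts, with the bounds coded by `T`. -/
def accW (Q : Sim) (c u x y T : ℕ) : ℕ :=
  gT u x T * (PT u x y T).rch (FF Q (Nat.log 2 x) (PT u x y T)) (c * Nat.log 2 x)

/-- The bound for `T`. -/
def NBW (x : ℕ) : ℕ := bsW x ^ 8

/-- LSA (may assume GUW, LSF, LSR). The decision is computed in linear space. `gw` as in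
`Pool/Agent/Helper48/MH/LSG.lean` (`unfold gw kap qT ll; fun_prop` with `LS_ZL`); the family `PT` is in
`PFW` (and `PFM`) with the bound `CT x` by GUW; `C' = 2 * (x + 2) ^ (2 * c)` (`two_pow_log_le`). `FF` for the
context `α × ℕ × ℕ × ℕ` by LSF. Second part: `NBW`. -/
def LSA_stmt : Prop := (∀ (Q : Sim) (c : ℕ),
    LS (fun z : ℕ × ℕ × ℕ × ℕ => accW Q c z.1 z.2.1 z.2.2.1 z.2.2.2)) ∧ LS NBW

/-- EXG (may assume GUW, PRW, EVW, COD, FOK, RCH). The machines have codes. Compare `exists_goodD` in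
`Pool/Agent/Helper92/RTS/Main.lean`, and `exists_code` in `Pool/Agent/Helper28/OHS/Fin.lean`. Let `tp = tab (K + 1) K
(A.tape)`, so `tpN i = A.tape i` for `i < K` (`dig_tab`). By `exists_code` there is a `u` with
the nine numbers `cfi u 0, …, cfi u 8`. `ParM` for `c0` of COD by EVW (`S ≤ ZL n`, `Z ≤ ZL n` by GUW) if
`gT ≠ 0`. Soundness: `accW ≠ 0` gives `gT ≠ 0` and `RCH.snd`. Completeness: PRW gives `c, R, E, G, d`;
`T = tab (bsW x) 8 …` has these digits; `RCH.cmp` with `P.N = d (R c) ≥ r`. -/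
def EXG_stmt : Prop := ∀ (Q : Sim) (c : ℕ) {D K : ℕ}, 0 < D → 0 < K →
    ∀ (A : MultiHead D K) (E : Decomp) (C : ℝ), ∃ e n₀ : ℕ, ∀ w y : List Bool, n₀ ≤ w.length →
    (∀ T < NBW (num w), accW Q c e (num w) (num y) T ≠ 0 → ∃ t, A.AcceptsAt w y t) ∧
    (Within A E c C w y → ∃ T < NBW (num w), accW Q c e (num w) (num y) T ≠ 0)

end Pool.Agent.Helper31.MHS
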