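import Pool.Agent.Helper31.MHS.Defs
import Pool.Agent.Helper20.MH.Num
import Pool.Agent.Helper28.OHS.Num
import Pool.Agent.Helper81.Sus2.Num
import Pool.Agent.Helper31.SusD.Grd

/-!
# The system for a part of a computation of a machine with several heads

A part of a computation starts with a configuration with the number `c` and has `τ` steps. It is a
system (`Sys` of `Helper20/MH/Num.lean`): the states are `u = q + 2 ^ sg * j`, where `q` codes state and
positions of the heads as in `Helper20/MH/Num.lean` and `j` is the number of steps which are left. The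
content `0` of a cell means that the cell was not visited, and `r + 1` means the content `r`.
Configurations: the number `1` is that of the start, `c ≥ 2` codes state, positions and a
description, see `cs` and `cn`.
-/

namespace Pool.Agent.Helper31.MHS

open Pool.Agent.Helper65.LinSpace Pool.Agent.Helper78.Mpc Pool.Agent.Helper28.Ram Finset
open Pool.Agent.Helper20.MH (Prm Sys)
open Pool.Agent.Helper28.OHS (cellN)


/-- The parameters: those of the machine, the length `Z` of the states of the decompressor and the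
codes `eD`, `eX` of its functions, the number `cb` of the bits of the counter, and the numbers `E`, `G`,
`d` of the simulation. -/
structure WP where
  m : Prm
  Z : ℕ
  eD : ℕ
  eX : ℕ
  cb : ℕ
  E : ℕ
  G : ℕ
  d : ℕ

namespace WP

variable (P : WP)

/-- The parameters of the decompressor. -/
def e : Pool.Agent.Helper81.Sus2.Prm where
  eA := 0
  eN := 0
  eW := 0
  eK := 0
  eG := 0
  eR := 0
  eD := P.eD
  eX := P.eX
  ini := 0
  B0 := 0
  st := 0
  Λ := P.m.Λ
  β := P.m.β
  B := P.m.B
  x := P.m.x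
  y := P.m.y
  S := 0
  Z := P.Z
  u := 0
  V := 0
  z := 0

/-- The number of bits of the code of state and positions. -/
def sg : ℕ := P.m.S + 1 + P.m.κ * (P.m.K * P.m.D)

/-! ### Configurations -/

/-- The number of the configurations with descriptions of at most `z` bits. -/
def nz (z : ℕ) : ℕ := 2 + 2 ^ P.sg * 2 ^ (z + 1)

/-- State and positions of the configuration `c`. -/
def cs (c : ℕ) : ℕ :=
  ifz (eq01 c 1) ((c - 2) % 2 ^ P.sg) (P.m.mk' (capN P.m.S P.m.st) fun _ => 2 ^ (P.m.κ - 1))

/-- The content of the cell with the name `x` in the configuration `c`. -/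
def cn (c x : ℕ) : ℕ := capN P.m.S (ifz (eq01 c 1) (P.e.lk ((c - 2) / 2 ^ P.sg) x) 1)

/-- The name of the cell number `Z`. -/
def nm (Z : ℕ) : ℕ :=
  catN (sdN (bitsN (Z % (P.m.K + 1))))
    (cellN P.m.κ (dig (2 ^ P.m.κ) (Z / (P.m.K + 1))) P.m.D)

/-- The content of the cell number `Z` in the configuration `c`. -/
def ini (c Z : ℕ) : ℕ := P.cn c (P.nm Z)

/-! ### The system -/

/-- The content of the cell number `Z`, if the system has the content `r` for it. -/
def ef (c Z r : ℕ) : ℕ := ifz r (P.ini c Z) (r - 1)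

/-- The contents which the heads read. -/
def fl (c q v : ℕ) : ℕ :=
  tab (2 ^ (P.m.S + 1)) P.m.K fun i => P.ef c (P.m.cell q i) (dig (2 ^ (P.m.S + 2)) v i)

/-- `0` if a step is made in the state `u`: there are steps left, and the state is not accepting. -/
def stp (u : ℕ) : ℕ := eq01 (u / 2 ^ P.sg) 0 + accN (P.m.wq (u % 2 ^ P.sg))

/-- The next state. -/
def wN (c u v : ℕ) : ℕ :=
  ifz (P.stp u) (P.m.fN (u % 2 ^ P.sg) (P.fl c (u % 2 ^ P.sg) v) +
    2 ^ P.sg * (u / 2 ^ P.sg - 1)) u % 2 ^ (P.sg + P.cb)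

/-- The new content of the cell of the head `i`. -/
def wW (c u v i : ℕ) : ℕ :=
  ifz (P.stp u) (P.m.fW (u % 2 ^ P.sg) (P.fl c (u % 2 ^ P.sg) v) i + 1)
    (dig (2 ^ (P.m.S + 2)) v i)

/-- The system for `τ` steps from the configuration `c`. -/
def sys (c τ : ℕ) : Sys where
  sg := P.sg + P.cb
  τ := P.m.S + 2
  K := P.m.K
  J := P.m.K * (3 * P.m.c) ^ P.m.D
  σ := P.m.κ * (P.m.K * P.m.D) + 1
  c := P.m.c
  R := P.m.R
  u0 := P.cs c + 2 ^ P.sg * (τ % 2 ^ P.cb)
  M0 := 0
  cell := fun u i => P.m.cell (u % 2 ^ P.sg) i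
  N := P.wN c
  W := P.wW c
  B := fun u => P.m.fB (u % 2 ^ P.sg)
  nb := P.m.nb

/-- The parallel machine for `τ` steps from the configuration `c`, with the root `x`. -/
def mach (c τ x : ℕ) : Pool.Agent.Helper65.RT.Mach :=
  { (P.sys c τ).mach P.E P.G P.d with root := x % 2 ^ (P.sys c τ).σ }

/-- The maximal number of steps. -/
def N : ℕ := P.d * (P.m.R * P.m.c)

/-! ### The check

`F c τ x` is the value of the register `x` of the parallel machine. -/

/-- The name of the neighbourhood in which all heads are in the cube of the cell `p` of a tape. -/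
def rt (p : ℕ) : ℕ :=
  tab (2 ^ P.m.κ) (P.m.K * P.m.D) fun k => dig (2 ^ P.m.κ) p (k % P.m.D) / P.m.c

/-- The content of the cell number `Z` after the part, if the value of the register `x` is `v`. -/
def oz (c τ x v Z : ℕ) : ℕ := P.ef c Z ((P.sys c τ).old x v Z)

/-- `1` if state, positions and the content of the cell `p` of the tape `i` after the part are those of
the configuration `d`. -/
def okz (F : ℕ → ℕ → ℕ → ℕ) (c τ d i p : ℕ) : ℕ :=
  eq01 (F c τ (P.rt p) % 2 ^ (P.sg + P.cb)) (P.cs d) *
    eq01 (P.oz c τ (P.rt p) (F c τ (P.rt p)) (i + (P.m.K + 1) * p))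
      (P.ini d (i + (P.m.K + 1) * p))

/-- `1` if the configuration after `τ > 0` steps is the configuration `d`. -/
def chk (F : ℕ → ℕ → ℕ → ℕ) (c τ d : ℕ) : ℕ :=
  lt01 0 τ * (lt01 1 d * (lt01 0 (P.m.wq (P.cs d)) *
    eq01 (∑ i ∈ range P.m.K, ∑ p ∈ range ((2 ^ P.m.κ) ^ P.m.D), (1 - P.okz F c τ d i p)) 0))

/-- `1` if the state after the part is accepting. -/
def ac (F : ℕ → ℕ → ℕ → ℕ) (c τ : ℕ) : ℕ := lt01 0 c * accN (P.m.wq (F c τ 0))

/-- Not `0` if the computation is accepting; the descriptions have at most `z` bits. -/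
def rch (F : ℕ → ℕ → ℕ → ℕ) (z : ℕ) : ℕ :=
  lt01 0 (P.m.wq (P.cs 1)) * ∑ j ∈ range (P.nz z), ∑ τ ∈ range (P.N + 1),
    P.ac F (Pool.Agent.Helper31.SusD.itr (P.chk F) (P.N + 1) (P.nz z) j) τ

end WP

end Pool.Agent.Helper31.MHS
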