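import Pool.Agent.Helper31.MHS.Final
import Pool.Agent.Helper81.Gen4.Main

/-!
# Sustained machines with several heads: one language for machines with and without guessed letters
-/

namespace Pool.Agent.Helper31.MHS

open Pool.Agent.Helper65.LinSpace Pool.Agent.Helper28.Ram Pool.Agent.Helper78.Mpc
open Pool.Agent.Helper20.MH (MultiHead)
open Pool.Agent.Helper81.Sus2 (Decomp)
open Pool.Agent.Helper81.Gen4 (Q Q_congr Q_const q_main q_lin)

/-- The word `y` without its last `c n` letters, where `n` is the length of the word `x`. -/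
def drp (c x y : ℕ) : ℕ :=
  y % 2 ^ (Nat.log 2 y - c * Nat.log 2 x) + 2 ^ (Nat.log 2 y - c * Nat.log 2 x)

theorem drp_num (c : ℕ) (w y : List Bool) :
    drp c (num w) (num y) = num (y.take (y.length - c * w.length)) := by
  have h2 : Nat.log 2 (num y) - c * Nat.log 2 (num w) = y.length - c * w.length := by
    rw [Pool.Agent.Helper65.LinSpace.log_num, Pool.Agent.Helper65.LinSpace.log_num]
  unfold drp
  rw [h2]
  generalize hm : y.length - c * w.length = m
  have h1 := Pool.Agent.Helper78.Mpc.num_append (y.take m) (y.drop m)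
  rw [List.take_append_drop, List.length_take, min_eq_left (by omega)] at h1
  have h3 := Pool.Agent.Helper65.LinSpace.log_num (y.take m)
  rw [List.length_take, min_eq_left (by omega)] at h3
  have h4 : 2 ^ Nat.log 2 (num (y.take m)) ≤ num (y.take m) :=
    Nat.pow_log_le_self 2 (num_pos _).ne'
  have h5 : num (y.take m) < 2 ^ (Nat.log 2 (num (y.take m)) + 1) :=
    Nat.lt_pow_succ_log_self (by norm_num) _
  rw [h3] at h4 h5
  have h7 : num y = num (y.take m) - 2 ^ m + 2 ^ m * num (y.drop m) := by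
    omega
  rw [h7, Nat.add_mul_mod_self_left, Nat.mod_eq_of_lt]
  · omega
  · rw [pow_succ] at h5
    omega

theorem ls_drp (c : ℕ) : LS (fun z : ℕ × ℕ => drp c z.1 z.2) := by
  have h : LS (fun z : ℕ × ℕ => 2 ^ (Nat.log 2 z.2 - c * Nat.log 2 z.1)) := by
    refine LS.pow_of_le (f := fun _ => 2) (C := fun z : ℕ × ℕ => z.2 + 1) (LS.const 2)
      (by fun_prop) (by fun_prop) fun z => ?_
    rcases Nat.eq_zero_or_pos z.2 with h0 | h0
    · rw [h0]
      simp
    · calc 2 ^ (Nat.log 2 z.2 - c * Nat.log 2 z.1) ≤ 2 ^ Nat.log 2 z.2 :=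
            Nat.pow_le_pow_right (by norm_num) (Nat.sub_le _ _)
        _ ≤ z.2 := Nat.pow_log_le_self 2 h0.ne'
        _ ≤ _ := Nat.le_succ _
  unfold drp
  fun_prop

/-- The decision for machines which read the guessed letters (even codes), and for those which do
not (odd codes). -/
def accB (Z : Pool.Agent.Helper65.RT.Sim) (c u x y T : ℕ) : ℕ :=
  accW Z c (u / 2) x (ifz (u % 2) y (drp (3 * c) x y)) T

theorem ls_accB (Z : Pool.Agent.Helper65.RT.Sim) (c : ℕ) :
    LS (fun z : ℕ × ℕ × ℕ × ℕ => accB Z c z.1 z.2.1 z.2.2.1 z.2.2.2) := by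
  have h1 : LS (fun z : ℕ × ℕ × ℕ × ℕ => ifz (z.1 % 2) z.2.2.1 (drp (3 * c) z.2.1 z.2.2.1)) :=
    LS.ifz (by fun_prop) (by fun_prop)
      (LS.comp (g := fun z : ℕ × ℕ => drp (3 * c) z.1 z.2)
        (f := fun z : ℕ × ℕ × ℕ × ℕ => (z.2.1, z.2.2.1)) (ls_drp (3 * c)) (by fun_prop))
  exact LS.comp (g := fun z : ℕ × ℕ × ℕ × ℕ => accW Z c z.1 z.2.1 z.2.2.1 z.2.2.2)
    (f := fun z : ℕ × ℕ × ℕ × ℕ => (z.1 / 2, z.2.1,
      ifz (z.1 % 2) z.2.2.1 (drp (3 * c) z.2.1 z.2.2.1), z.2.2.2)) (theLSA.1 Z c) (by fun_prop)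

theorem q_take (c : ℕ) (w α : List Bool) (P : List Bool → Prop) :
    Q (c * w.length) (fun v => P ((α ++ v).take ((α ++ v).length - 3 * c * w.length))) ↔ P α := by
  rw [← Q_const (c * w.length) (P α)]
  refine Q_congr fun x u y hx hu hy => ?_
  have e : (α ++ (x ++ (u ++ y))).length - 3 * c * w.length = α.length := by
    simp only [List.length_append, hx, hu, hy]
    have : 3 * c * w.length = c * w.length + (c * w.length + c * w.length) := by ring
    omega
  rw [e, List.take_left']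
  rfl

/-- **Average-case hardness for sustained machines with several heads.** -/
theorem mhs_two (c : ℕ) (hc : 0 < c) :
    ∃ L : Set (List Bool), DLINSPACE L ∧
      (∀ (D K : ℕ), 0 < D → 0 < K → ∀ (A : MultiHead D K) (E : Decomp) (C : ℝ), ∃ c' : ℝ,
        ∀ (n : ℕ) (α : List Bool), ∀ M, M = L ∨ M = Lᶜ →
        ({w : List Bool | w.length = n ∧
          (Q (c * n) (fun v => ∃ t, A.AcceptsAt w (α ++ v) t) → w ∈ M) ∧
          (w ∈ M → Q (c * n) fun v => Within A E c C w (α ++ v))}.ncard : ℝ) ≤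
          2 ^ n / 2 + c' * ((α.length : ℝ) + 1) * 2 ^ (((n : ℝ) + α.length / c) / 2)) ∧
      ∀ (D K : ℕ), 0 < D → 0 < K → ∀ (A : MultiHead D K) (E : Decomp) (C : ℝ), ∃ c' : ℝ,
        ∀ (n : ℕ) (α : List Bool), ∀ M, M = L ∨ M = Lᶜ →
        ({w : List Bool | w.length = n ∧
          ((∃ t, A.AcceptsAt w α t) → w ∈ M) ∧ (w ∈ M → Within A E c C w α)}.ncard : ℝ) ≤
          2 ^ n / 2 + c' * ((α.length : ℝ) + 1) * 2 ^ (((n : ℝ) + α.length / c) / 2) := by
  obtain ⟨L, h1, h4⟩ := q_main (accB Pool.Agent.Helper65.RT.theSim c) NBW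
    (ls_accB Pool.Agent.Helper65.RT.theSim c) theLSA.2 c c hc
  refine ⟨L, h1, fun D K hD hK A E C => ?_, fun D K hD hK A E C => ?_⟩
  · obtain ⟨e, n₀, he⟩ := theEXG Pool.Agent.Helper65.RT.theSim c hD hK A E C
    refine h4 (fun w y => ∃ t, A.AcceptsAt w y t) (Within A E c C) ⟨2 * e, n₀, ?_⟩
    intro w y hw
    have e1 : 2 * e / 2 = e := by omega
    have e2 : 2 * e % 2 = 0 := by omega
    simp only [accB, e1, e2, ifz, if_true]
    exact he w y hw
  · obtain ⟨e, n₀, he⟩ := theEXG Pool.Agent.Helper65.RT.theSim c hD hK A E C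
    have h := h4
      (fun w y => ∃ t, A.AcceptsAt w (y.take (y.length - 3 * c * w.length)) t)
      (fun w y => Within A E c C w (y.take (y.length - 3 * c * w.length))) ⟨2 * e + 1, n₀, ?_⟩
    · obtain ⟨c', h⟩ := h
      refine ⟨c', fun n α M hM => ?_⟩
      have h5 := h n α M hM
      convert h5 using 5 with w
      refine and_congr_right fun hw => ?_
      subst hw
      have e1 := q_take c w α fun y => ∃ t, A.AcceptsAt w y t
      have e2 := q_take c w α fun y => Within A E c C w y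
      exact and_congr (imp_congr_left e1.symm) (imp_congr_right fun _ => e2.symm)
    · intro w y hw
      have e1 : (2 * e + 1) / 2 = e := by omega
      have e2 : (2 * e + 1) % 2 = 1 := by omega
      simp only [accB, e1, e2, ifz, one_ne_zero, if_false, drp_num]
      exact he w _ hw

/-- Languages accepted by sustained machines with several heads are in linear space. -/
theorem mhs_qlin (c : ℕ) {D K : ℕ} (hD : 0 < D) (hK : 0 < K) (A : MultiHead D K) (E : Decomp)
    (L : Set (List Bool)) (C : ℝ)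
    (h1 : ∀ w, Q (c * w.length) (fun v => ∃ t, A.AcceptsAt w v t) → w ∈ L)
    (h2 : ∀ w ∈ L, Q (c * w.length) (Within A E c C w)) : DLINSPACE L :=
  q_lin (accW Pool.Agent.Helper65.RT.theSim c) NBW
    (theLSA.1 Pool.Agent.Helper65.RT.theSim c) theLSA.2 c L
    (fun w y => ∃ t, A.AcceptsAt w y t) (Within A E c C)
    (theEXG Pool.Agent.Helper65.RT.theSim c hD hK A E C) h1 h2

end Pool.Agent.Helper31.MHS
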